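import Mathlib
import Pool.Agent.Lib.MP_0e0027_nt.Ex.V.VerAll
import Pool.Agent.Lib.TFS.BigFinal

set_option autoImplicit false

open Pool.Agent.Lib.MP_0e0027_nt.Ex

namespace Pool.Agent.Results.MP_0e0027_nt.FullAnswer

/-- no four pairwise coprime numbers below `B` have square sum `N` (a light check) -/
def noRep (N B : ℕ) : Bool :=
  (List.range B).all fun a => (List.range B).all fun b =>
    !(Nat.gcd a b == 1) || (List.range B).all fun c =>
      !(Nat.gcd a c == 1 && Nat.gcd b c == 1) || (List.range B).all fun d =>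
        !(a * a + b * b + c * c + d * d == N &&
          (Nat.gcd a d == 1 && (Nat.gcd b d == 1 && Nat.gcd c d == 1)))

theorem noRep_snd {N B : ℕ} (h : noRep N B = true) {a b c d : ℕ} (ha : a < B) (hb : b < B)
    (hc : c < B) (hd : d < B) (h1 : Nat.gcd a b = 1) (h2 : Nat.gcd a c = 1)
    (h3 : Nat.gcd a d = 1) (h4 : Nat.gcd b c = 1) (h5 : Nat.gcd b d = 1) (h6 : Nat.gcd c d = 1) :
    a ^ 2 + b ^ 2 + c ^ 2 + d ^ 2 ≠ N := by
  intro hs
  have e := List.all_eq_true.mp h a (List.mem_range.mpr ha)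
  have e := List.all_eq_true.mp e b (List.mem_range.mpr hb)
  rw [Bool.or_eq_true] at e
  rcases e with e | e
  · simp [h1] at e
  have e := List.all_eq_true.mp e c (List.mem_range.mpr hc)
  rw [Bool.or_eq_true] at e
  rcases e with e | e
  · simp [h2, h4] at e
  have e := List.all_eq_true.mp e d (List.mem_range.mpr hd)
  have hs' : a * a + b * b + c * c + d * d = N := by
    rw [← hs]; ring
  simp [h3, h5, h6, hs'] at e

def noRep100 : noRep 100 11 = true := by decide +kernel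

def noRep268 : noRep 268 17 = true := by decide +kernel

theorem not100 : ¬ Rep4 100 := by
  rintro ⟨a, b, c, d, h, h1, h2, h3, h4, h5, h6⟩
  exact noRep_snd noRep100 (by nlinarith) (by nlinarith) (by nlinarith) (by nlinarith)
    h1 h2 h3 h4 h5 h6 h

theorem not268 : ¬ Rep4 268 := by
  rintro ⟨a, b, c, d, h, h1, h2, h3, h4, h5, h6⟩
  exact noRep_snd noRep268 (by nlinarith) (by nlinarith) (by nlinarith) (by nlinarith)
    h1 h2 h3 h4 h5 h6 h

/-- integers to natural numbers -/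
theorem rep4_iff (n : ℕ) : Rep4 n ↔ ∃ x : Fin 4 → ℤ,
    x 0 ^ 2 + x 1 ^ 2 + x 2 ^ 2 + x 3 ^ 2 = (n : ℤ) ∧
      ∀ i j : Fin 4, i ≠ j → Int.gcd (x i) (x j) = 1 := by
  constructor
  · rintro ⟨a, b, c, d, h, h1, h2, h3, h4, h5, h6⟩
    refine ⟨![a, b, c, d], ?_, ?_⟩
    · simp
      exact_mod_cast h
    · intro i j hij
      fin_cases i <;> fin_cases j <;> simp at hij ⊢ <;>
        first
        | assumption
        | (rw [Nat.gcd_comm]; assumption)
  · rintro ⟨x, h, hx⟩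
    refine ⟨(x 0).natAbs, (x 1).natAbs, (x 2).natAbs, (x 3).natAbs, ?_,
      hx 0 1 (by decide), hx 0 2 (by decide), hx 0 3 (by decide), hx 1 2 (by decide),
      hx 1 3 (by decide), hx 2 3 (by decide)⟩
    zify
    simp only [sq_abs]
    exact h

theorem sq_mod8 (x : ℕ) : (x % 2 = 0 ∧ (x ^ 2 % 8 = 0 ∨ x ^ 2 % 8 = 4)) ∨ (x % 2 = 1 ∧ x ^ 2 % 8 = 1) := by
  have h : x % 8 = 0 ∨ x % 8 = 1 ∨ x % 8 = 2 ∨ x % 8 = 3 ∨ x % 8 = 4 ∨ x % 8 = 5 ∨ x % 8 = 6 ∨
    x % 8 = 7 := by omega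
  rw [Nat.pow_mod]
  rcases h with h | h | h | h | h | h | h | h <;> rw [h] <;> norm_num <;> omega

theorem sq_mod3 (x : ℕ) : (x % 3 = 0 ∧ x ^ 2 % 3 = 0) ∨ (x % 3 ≠ 0 ∧ x ^ 2 % 3 = 1) := by
  have h : x % 3 = 0 ∨ x % 3 = 1 ∨ x % 3 = 2 := by omega
  rw [Nat.pow_mod]
  rcases h with h | h | h <;> rw [h] <;> norm_num

theorem adm_of_rep {n : ℕ} (h : Rep4 n) : Adm n := by
  obtain ⟨a, b, c, d, h, h1, h2, h3, h4, h5, h6⟩ := h
  have key : ∀ m : ℕ, m ≠ 1 → ∀ x y : ℕ, x.Coprime y → ¬ (m ∣ x ∧ m ∣ y) := by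
    intro m hm x y hxy hd
    exact hm (Nat.eq_one_of_dvd_coprimes hxy hd.1 hd.2)
  have e1 := key 2 (by norm_num) a b h1
  have e2 := key 2 (by norm_num) a c h2
  have e3 := key 2 (by norm_num) a d h3
  have e4 := key 2 (by norm_num) b c h4
  have e5 := key 2 (by norm_num) b d h5
  have e6 := key 2 (by norm_num) c d h6
  have f1 := key 3 (by norm_num) a b h1
  have f2 := key 3 (by norm_num) a c h2
  have f3 := key 3 (by norm_num) a d h3
  have f4 := key 3 (by norm_num) b c h4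
  have f5 := key 3 (by norm_num) b d h5
  have f6 := key 3 (by norm_num) c d h6
  constructor
  · clear f1 f2 f3 f4 f5 f6
    rcases sq_mod8 a with ha | ha <;> rcases sq_mod8 b with hb | hb <;>
      rcases sq_mod8 c with hc | hc <;> rcases sq_mod8 d with hd | hd <;> omega
  · clear e1 e2 e3 e4 e5 e6
    rcases sq_mod3 a with ha | ha <;> rcases sq_mod3 b with hb | hb <;>
      rcases sq_mod3 c with hc | hc <;> rcases sq_mod3 d with hd | hd <;> omega

/-- the characterisation, from the verification and the analytic result -/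
theorem char_of (hV : StVer') (hB : Pool.Agent.TFS.StBig) (n : ℕ) : (∃ x : Fin 4 → ℤ,
    x 0 ^ 2 + x 1 ^ 2 + x 2 ^ 2 + x 3 ^ 2 = (n : ℤ) ∧
      ∀ i j : Fin 4, i ≠ j → Int.gcd (x i) (x j) = 1) ↔
    ((n % 8 = 3 ∨ n % 8 = 4 ∨ n % 8 = 7) ∧ n % 3 ≠ 2 ∧ n ≠ 100 ∧ n ≠ 268) := by
  rw [← rep4_iff]
  constructor
  · intro h
    have h1 := adm_of_rep h
    refine ⟨h1.1, h1.2, ?_, ?_⟩
    · rintro rfl
      exact not100 h
    · rintro rfl
      exact not268 h
  · rintro ⟨h8, h3, h100, h268⟩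
    by_cases hs : (n % 3 = 1 → n < 19 * 10 ^ 16) ∧ (n % 3 = 0 → n < 115 * 10 ^ 14)
    · exact hV n ⟨h8, h3⟩ h100 h268 hs.1 hs.2
    · exact hB n ⟨h8, h3⟩ (by omega) (by omega)

/-- Characterisation of the sums of four pairwise coprime squares. -/
theorem result : ∀ n : ℕ, (∃ x : Fin 4 → ℤ,
    x 0 ^ 2 + x 1 ^ 2 + x 2 ^ 2 + x 3 ^ 2 = (n : ℤ) ∧
      ∀ i j : Fin 4, i ≠ j → Int.gcd (x i) (x j) = 1) ↔
    ((n % 8 = 3 ∨ n % 8 = 4 ∨ n % 8 = 7) ∧ n % 3 ≠ 2 ∧ n ≠ 100 ∧ n ≠ 268) :=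
  char_of verAll Pool.Agent.TFS.bigAll

end Pool.Agent.Results.MP_0e0027_nt.FullAnswer
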