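import Mathlib
import Pool.Agent.Lib.MP_0e0027_nt.Assembly

set_option autoImplicit false

open Finset
open Pool.Agent.Lib.MP_0e0027_nt

namespace Pool.Agent.Results.MP_0e0027_nt.LargeIntegers

/-- The quadruples of pairwise coprime integers whose squares sum to `n`. -/
def Reps (n : ℕ) : Set (Fin 4 → ℤ) :=
  {x | x 0 ^ 2 + x 1 ^ 2 + x 2 ^ 2 + x 3 ^ 2 = (n : ℤ) ∧
    ∀ i j : Fin 4, i ≠ j → Int.gcd (x i) (x j) = 1}

theorem sq_mod3 (x : ℤ) : (x % 3 = 0 ∧ x ^ 2 % 3 = 0) ∨ (x % 3 ≠ 0 ∧ x ^ 2 % 3 = 1) := by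
  have : x % 3 = 0 ∨ x % 3 = 1 ∨ x % 3 = 2 := by omega
  rw [sq, Int.mul_emod]
  rcases this with h | h | h <;> rw [h] <;> norm_num

theorem not_both {x : Fin 4 → ℤ} (h : ∀ i j : Fin 4, i ≠ j → Int.gcd (x i) (x j) = 1)
    {i j : Fin 4} (hij : i ≠ j) {m : ℤ} (hm : ¬ m ∣ 1) : ¬ (m ∣ x i ∧ m ∣ x j) := by
  rintro ⟨h1, h2⟩
  apply hm
  have h3 := Int.dvd_coe_gcd h1 h2
  rw [h i j hij] at h3
  exact_mod_cast h3

/-- the necessary congruence conditions -/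
theorem necessary {n : ℕ} {x : Fin 4 → ℤ} (hx : x ∈ Reps n) :
    (n % 8 = 3 ∨ n % 8 = 4 ∨ n % 8 = 7) ∧ n % 3 ≠ 2 := by
  obtain ⟨h1, h2⟩ := hx
  have p01 : ¬ ((2 : ℤ) ∣ x 0 ∧ (2 : ℤ) ∣ x 1) := not_both h2 (by decide) (by norm_num)
  have p02 : ¬ ((2 : ℤ) ∣ x 0 ∧ (2 : ℤ) ∣ x 2) := not_both h2 (by decide) (by norm_num)
  have p03 : ¬ ((2 : ℤ) ∣ x 0 ∧ (2 : ℤ) ∣ x 3) := not_both h2 (by decide) (by norm_num)
  have p12 : ¬ ((2 : ℤ) ∣ x 1 ∧ (2 : ℤ) ∣ x 2) := not_both h2 (by decide) (by norm_num)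
  have p13 : ¬ ((2 : ℤ) ∣ x 1 ∧ (2 : ℤ) ∣ x 3) := not_both h2 (by decide) (by norm_num)
  have p23 : ¬ ((2 : ℤ) ∣ x 2 ∧ (2 : ℤ) ∣ x 3) := not_both h2 (by decide) (by norm_num)
  have q01 : ¬ ((3 : ℤ) ∣ x 0 ∧ (3 : ℤ) ∣ x 1) := not_both h2 (by decide) (by norm_num)
  have q02 : ¬ ((3 : ℤ) ∣ x 0 ∧ (3 : ℤ) ∣ x 2) := not_both h2 (by decide) (by norm_num)
  have q03 : ¬ ((3 : ℤ) ∣ x 0 ∧ (3 : ℤ) ∣ x 3) := not_both h2 (by decide) (by norm_num)
  have q12 : ¬ ((3 : ℤ) ∣ x 1 ∧ (3 : ℤ) ∣ x 2) := not_both h2 (by decide) (by norm_num)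
  have q13 : ¬ ((3 : ℤ) ∣ x 1 ∧ (3 : ℤ) ∣ x 3) := not_both h2 (by decide) (by norm_num)
  have q23 : ¬ ((3 : ℤ) ∣ x 2 ∧ (3 : ℤ) ∣ x 3) := not_both h2 (by decide) (by norm_num)
  constructor
  · clear q01 q02 q03 q12 q13 q23
    rcases sq_cases (x 0) with a | a | a <;> rcases sq_cases (x 1) with b | b | b <;>
      rcases sq_cases (x 2) with c | c | c <;> rcases sq_cases (x 3) with d | d | d <;> omega
  · clear p01 p02 p03 p12 p13 p23
    rcases sq_mod3 (x 0) with a | a <;> rcases sq_mod3 (x 1) with b | b <;>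
      rcases sq_mod3 (x 2) with c | c <;> rcases sq_mod3 (x 3) with d | d <;> omega

theorem reps_finite (n : ℕ) : (Reps n).Finite := by
  apply Set.Finite.subset (Fintype.piFinset (fun _ : Fin 4 ↦ Icc (-(n : ℤ)) n)).finite_toSet
  intro x hx
  obtain ⟨h1, _⟩ := hx
  rw [mem_coe, Fintype.mem_piFinset]
  intro i
  apply mem_Icc_of_sq
  have a0 := sq_nonneg (x 0)
  have a1 := sq_nonneg (x 1)
  have a2 := sq_nonneg (x 2)
  have a3 := sq_nonneg (x 3)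
  fin_cases i <;> simp only [Fin.zero_eta, Fin.mk_one, Fin.reduceFinMk] <;> linarith

theorem card_le_reps (n : ℕ) : ((Qset n).filter PC).card ≤ (Reps n).ncard := by
  set f : ((ℤ × ℤ) × (ℤ × ℤ)) → (Fin 4 → ℤ) := fun u ↦ ![u.1.1, u.1.2, u.2.1, u.2.2] with hf
  have hinj : Function.Injective f := by
    intro u v h
    have h0 := congrFun h 0
    have h1 := congrFun h 1
    have h2 := congrFun h 2
    have h3 := congrFun h 3
    simp [hf] at h0 h1 h2 h3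
    exact Prod.ext (Prod.ext h0 h1) (Prod.ext h2 h3)
  rw [← card_image_of_injective _ hinj, ← Set.ncard_coe_finset]
  apply Set.ncard_le_ncard _ (reps_finite n)
  intro x hx
  rw [mem_coe, mem_image] at hx
  obtain ⟨u, hu, rfl⟩ := hx
  rw [mem_filter, mem_Qset] at hu
  obtain ⟨⟨h1, _⟩, h2⟩ := hu
  refine ⟨?_, ?_⟩
  · simp [hf]
    linarith
  · have g0 := h2 0
    have g1 := h2 1
    have g2 := h2 2
    have g3 := h2 3
    have g4 := h2 4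
    have g5 := h2 5
    simp only [pm] at g0 g1 g2 g3 g4 g5
    intro i j hij
    fin_cases i <;> fin_cases j <;> simp [hf] at hij ⊢ <;>
      first
      | assumption
      | (rw [Int.gcd_comm]; assumption)

/-- For all large `n`: `n` is a sum of four pairwise coprime squares if and only if
`n` is `3, 4` or `7` modulo `8` and not `2` modulo `3`; moreover such `n` have at least `c n`
representations. -/
theorem result : ∃ c : ℝ, 0 < c ∧ ∃ N0 : ℕ, ∀ n : ℕ, N0 ≤ n →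
    ((Reps n).Nonempty ↔ ((n % 8 = 3 ∨ n % 8 = 4 ∨ n % 8 = 7) ∧ n % 3 ≠ 2)) ∧
    ((Reps n).Nonempty → c * (n : ℝ) ≤ ((Reps n).ncard : ℝ)) := by
  obtain ⟨c, hc, N0, h⟩ := main_count
  refine ⟨c, hc, N0 + 1, ?_⟩
  intro n hn
  have hcount : (n % 8 = 3 ∨ n % 8 = 4 ∨ n % 8 = 7) ∧ n % 3 ≠ 2 →
      c * (n : ℝ) ≤ ((Reps n).ncard : ℝ) := by
    rintro ⟨h8, h3⟩
    refine le_trans (h n (by omega) h8 h3) ?_
    exact_mod_cast card_le_reps n
  refine ⟨⟨?_, ?_⟩, ?_⟩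
  · rintro ⟨x, hx⟩
    exact necessary hx
  · intro hadm
    have h1 := hcount hadm
    have hn0 : (0 : ℝ) < n := by exact_mod_cast (show 0 < n by omega)
    have h2 : (0 : ℝ) < ((Reps n).ncard : ℝ) := lt_of_lt_of_le (by positivity) h1
    have h3 : 0 < (Reps n).ncard := by exact_mod_cast h2
    exact (Set.ncard_pos (reps_finite n)).mp h3
  · rintro ⟨x, hx⟩
    exact hcount (necessary hx)

end Pool.Agent.Results.MP_0e0027_nt.LargeIntegers
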